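import Pool.Agent.helper9.TH.Spec

/-!
# Row TH: assembly of Thompson's normal p-complement theorem
-/

set_option autoImplicit false

namespace Pool.Agent.helper98.TH

open Pool.Agent.helper9.TH

universe u

/-- Row TH. -/
theorem TH (hS2 : S2_stmt.{u}) (hS3 : S3_stmt.{u}) (hS4 : S4_stmt.{u})
    (hS5 : S5_stmt.{u}) (hS6 : S6_stmt.{u}) (hS7b : S7b_stmt.{u}) (hS8 : S8_stmt.{u})
    (hS9 : S9_stmt.{u}) (hS10 : S10_stmt.{u}) : TH_stmt.{u} := by
  intro p G _ _ P hp hp2 hyp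
  have key : ∀ n : ℕ, ∀ (G : Type u) [Group G] [Finite G] (P : Subgroup G),
      Nat.card G = n → Hyp p G P → PN p G := by
    intro n
    induction n using Nat.strong_induction_on with
    | _ n ih =>
      intro G _ _ P hn hyp
      have hI : IHyp.{u} p (Nat.card G) := by
        intro G' _ _ P' hlt hyp'
        exact ih (Nat.card G') (hn ▸ hlt) G' P' rfl hyp'
      by_contra hN
      obtain ⟨D, hDn, hDp, hD0⟩ := hS2 p G P hp hI hyp hN
      obtain ⟨hSyl, hPJ, hPO⟩ := hyp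
      obtain ⟨hPp, hPi⟩ := hSyl
      have : Fact p.Prime := ⟨hp⟩
      obtain ⟨U, hDU, hUmax⟩ := (Set.toFinite {D : Subgroup G | D.Normal ∧ IsPGroup p D}).exists_le_maximal
        (a := D) ⟨hDn, hDp⟩
      have hUn : U.Normal := hUmax.1.1
      have hUp : IsPGroup p U := hUmax.1.2
      have hU0 : U ≠ ⊥ := fun h => hD0 (by rw [h] at hDU; exact le_bot_iff.mp hDU)
      have hOp : OpMax p U := by
        intro E hEn hEp
        have := hEn
        have h1 : IsPGroup p ((U ⊔ E : Subgroup G)) := IsPGroup.to_sup_of_normal_right hUp hEp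
        have h2 : (U ⊔ E).Normal := inferInstance
        have h3 : U ⊔ E ≤ U := hUmax.2 (show U ⊔ E ∈ {D : Subgroup G | D.Normal ∧ IsPGroup p D} from ⟨h2, h1⟩) le_sup_left
        exact le_sup_right.trans h3
      have hUP : U ≤ P := by
        have h1 : IsPGroup p ((P ⊔ U : Subgroup G)) := IsPGroup.to_sup_of_normal_right hPp hUp
        have h2 : P ⊔ U = P := (hPp.toSylow hPi).is_maximal' h1 le_sup_left
        rw [← h2]; exact le_sup_right
      have hyp : Hyp p G P := ⟨⟨hPp, hPi⟩, hPJ, hPO⟩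
      have hQ : PN p (G ⧸ U) := hS3 p G P U hp hI hyp hUp hUP hU0 hOp
      have hNo : NoPP p G := hS4 p G P hp hI hyp hN
      have hC : ∀ g : G, (∀ x ∈ U, g * x = x * g) → g ∈ U := hS5 p G U hp hUp hOp hNo hQ
      have hM : ∀ H : Subgroup G, P ≤ H → H ≠ ⊤ → H = P := hS6 p G P U hp hI hyp hUp hUP hC
      obtain ⟨K, hKn, hUK, hKc, hKi, hKf⟩ := hS7b p G P U hp ⟨hPp, hPi⟩ hUP hOp hQ hM
      obtain ⟨V, hVn, hVU, hVE, hVc, hVC⟩ := hS8 p G P U hp hPp hUP hOp hNo hPO hC
      obtain ⟨A, hAP, hAE, hAU, hAc⟩ := hS9 p G P U V hp hUn hVn hPp hUP hVU hVE hVc hPJ hN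
      exact hS10 p G U V K A hp hp2 hUn hVn hKn hVU hVE hVc hVC hUK hKc hKi hAE hAU
        (fun g hg h => hKf g (hAP hg) h) hAc
  exact key (Nat.card G) G P rfl hyp

end Pool.Agent.helper98.TH
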